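import Pool.Agent.Lib.MP_68a45e_nt.AvMain
import Pool.Agent.Lib.MP_68a45e_nt.CEnd3

set_option autoImplicit false

namespace Pool.Agent.Results.MP_68a45e_nt.AlmostAllTuples

open Filter Topology N9a2a6718

/-- The Hardy-Littlewood asymptotic formula for almost all tuples in a box of side `X ^ θ`. -/
theorem result (k A : ℕ) (hk : 1 ≤ k) (θ η : ℝ) (hθ : 1 / 9 < θ) (hη : 0 < η) :
    ∀ᶠ X : ℕ in atTop, ∀ (H : ℕ) (b : Fin k → ℕ), (X : ℝ) ^ θ ≤ H →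
      (∀ i, (b i + H : ℝ) ≤ (X : ℝ) ^ (1 - η)) →
      ({m : Fin k.succ → ℕ | m 0 = 0 ∧ (∀ i : Fin k, b i < m i.succ ∧ m i.succ ≤ b i + H) ∧
        ¬ (Function.Injective m ∧ ∃ C : ℝ,
          Tendsto (HardyLittlewoodPartialProduct m) atTop (𝓝 C) ∧
          |(N9a2a6718.Nat.primeTupleCounting m X : ℝ)
              - C * ∫ t in (2 : ℝ)..X, 1 / t.log ^ k.succ| ≤ X / Real.log X ^ A)}.ncard : ℝ)
        ≤ (H : ℝ) ^ k / Real.log X ^ A :=
  Pool.Agent.Lib.MP_68a45e_nt.Av.final_of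
    (Pool.Agent.Lib.MP_68a45e_nt.Av.main_of Pool.Agent.Lib.MP_68a45e_nt.Av.conv (by linarith)
      (Pool.Agent.Lib.MP_68a45e_nt.Av.lamAvg_final hθ)) k A hk η hη

end Pool.Agent.Results.MP_68a45e_nt.AlmostAllTuples
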