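import Pool.Agent.Lib.MP_68a45e_nt.Ek.Main

namespace Pool.Agent.Results.MP_68a45e_nt.ErdosKac

theorem result (r : ℕ) (a b : ℚ) (c : ℕ → ℚ)
    (h : (a : ℝ) + b * Real.exp 1 + ∑ k ∈ Finset.range r, (c k : ℝ) *
      ∑' n : ℕ, (ArithmeticFunction.sigma k n : ℝ) / (n.factorial : ℝ) = 0) :
    a = 0 ∧ b = 0 ∧ ∀ k < r, c k = 0 :=
  Lib.MP_68a45e_nt.Ek.main r a b c h

end Pool.Agent.Results.MP_68a45e_nt.ErdosKac
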