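import Pool.Agent.Lib.MP_6a20cc_nt.Rp.Main4

namespace Pool.Agent.Results.MP_68a45e_nt.ResiduePatterns

theorem result (q m : ℕ) (hq : 3 ≤ q) (hm : 1 ≤ m) : ∃ D K : ℕ, ∀ᶠ x : ℕ in Filter.atTop,
    ((q.totient : ℝ) / (16 * Real.log q.totient)) ^ m ≤
      Set.ncard {a : Fin m → ZMod q | (x : ℝ) ≤ Real.log x ^ K *
        Set.ncard {n : ℕ | Nat.nth Nat.Prime n ≤ x ∧ ∀ i : Fin m,
          (Nat.nth Nat.Prime (n + i) : ZMod q) = a i ∧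
            Nat.nth Nat.Prime (n + i) ≤ Nat.nth Nat.Prime n + D}} :=
  (Lib.MP_6a20cc_nt.Rp.patterns4 q m hq hm).elim fun J h => ⟨J, J, h⟩

end Pool.Agent.Results.MP_68a45e_nt.ResiduePatterns
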