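import Pool.Agent.Lib.MP_68a45e_nt.OptFinal

set_option autoImplicit false

namespace Pool.Agent.Results.MP_68a45e_nt.SieveOptimal

open Filter Topology Finset N9a2a6718

theorem result (k : ℕ) (m : Fin k.succ → ℕ) (hm : Function.Injective m) (C : ℝ)
    (hC : Tendsto (HardyLittlewoodPartialProduct m) atTop (𝓝 C)) :
    ∀ᶠ D : ℕ in atTop, ∀ (z : ℕ) (l : ℕ → ℕ → ℝ), (∀ n : ℕ, 0 ≤ ∑ q ∈ Icc 1 D, l q (n % q)) →
      (∀ n : ℕ, (∀ i, ∀ p : ℕ, p.Prime → p ≤ z → ¬ p ∣ n + 2 * m i) →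
        1 ≤ ∑ q ∈ Icc 1 D, l q (n % q)) →
      1 / 10 ^ 6 * (2 ^ (k + 1) * (k + 1).factorial * C / Real.log D ^ (k + 1)) ≤
        ∑ q ∈ Icc 1 D, (∑ r ∈ range q, l q r) / q :=
  Pool.Agent.Lib.MP_68a45e_nt.Opt.opt_bound k m hm C hC

end Pool.Agent.Results.MP_68a45e_nt.SieveOptimal
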